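import Mathlib

namespace Pool.Agent.V1138.DE

open Finset

/-- The entropy inequality between two (scaled) positive solutions. -/
theorem ineq1 {n : ℕ} (V : Matrix (Fin n) (Fin n) ℝ) (hV : ∀ i j, 0 ≤ V i j)
    (d x y d' y' : Fin n → ℝ)
    (hd : ∀ i, 0 < d i) (hx : ∀ i, 0 < x i) (hy : ∀ i, 0 < y i)
    (hd' : ∀ i, 0 < d' i) (hy' : ∀ i, 0 < y' i)
    (ey : ∀ i, y i = ∑ j, V i j * (d j * y j))
    (ex : ∀ j, x j = ∑ i, V i j * (d i * x i))
    (ey' : ∀ i, y' i = ∑ j, V i j * (d' j * y' j)) :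
    ∑ i, d i * x i * y i * (Real.log (d' i) - Real.log (d i)) ≤ 0 := by
  set Lb : Fin n → ℝ := fun j => Real.log (d' j) + Real.log (y' j) - Real.log (d j)
    - Real.log (y j) with hLb
  set La : Fin n → ℝ := fun i => Real.log (y' i) - Real.log (y i) with hLa
  have h1 : ∀ i j, V i j * (d i * x i) * (d j * y j) * (Lb j - La i)
      ≤ V i j * (d i * x i) * (d' j * y' j) * (y i / y' i)
        - V i j * (d i * x i) * (d j * y j) := by
    intro i j
    have hb : 0 < (d' j * y' j) / (d j * y j) := by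
      have := hd j; have := hd' j; have := hy j; have := hy' j; positivity
    have ha : 0 < y i / y' i := by
      have := hy i; have := hy' i; positivity
    have hl := Real.log_le_sub_one_of_pos (mul_pos hb ha)
    have hlog : Real.log ((d' j * y' j) / (d j * y j) * (y i / y' i)) = Lb j - La i := by
      rw [Real.log_mul hb.ne' ha.ne', Real.log_div (mul_pos (hd' j) (hy' j)).ne'
        (mul_pos (hd j) (hy j)).ne', Real.log_mul (hd' j).ne' (hy' j).ne',
        Real.log_mul (hd j).ne' (hy j).ne', Real.log_div (hy i).ne' (hy' i).ne']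
      simp only [hLb, hLa]; ring
    rw [hlog] at hl
    have hc : 0 ≤ V i j * (d i * x i) * (d j * y j) := by
      have := hd i; have := hx i; have := hd j; have := hy j; have := hV i j; positivity
    have := mul_le_mul_of_nonneg_left hl hc
    refine this.trans (le_of_eq ?_)
    have h3 := (hd j).ne'; have h4 := (hy j).ne'; have h5 := (hy' i).ne'
    field_simp
  have h2 : ∑ i, ∑ j, V i j * (d i * x i) * (d j * y j) * (Lb j - La i) ≤ 0 := by
    refine Finset.sum_nonpos fun i _ => ?_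
    refine (Finset.sum_le_sum fun j _ => h1 i j).trans (le_of_eq ?_)
    rw [Finset.sum_sub_distrib]
    have e1 : ∑ j, V i j * (d i * x i) * (d' j * y' j) * (y i / y' i)
        = (d i * x i) * (y i / y' i) * ∑ j, V i j * (d' j * y' j) := by
      rw [Finset.mul_sum]; exact Finset.sum_congr rfl fun j _ => by ring
    have e2 : ∑ j, V i j * (d i * x i) * (d j * y j)
        = (d i * x i) * ∑ j, V i j * (d j * y j) := by
      rw [Finset.mul_sum]; exact Finset.sum_congr rfl fun j _ => by ring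
    rw [e1, e2, ← ey' i, ← ey i]
    have h5 := (hy' i).ne'
    field_simp
    ring
  have h3 : ∑ i, ∑ j, V i j * (d i * x i) * (d j * y j) * (Lb j - La i)
      = ∑ i, d i * x i * y i * (Real.log (d' i) - Real.log (d i)) := by
    have e0 : ∀ i j, V i j * (d i * x i) * (d j * y j) * (Lb j - La i)
        = V i j * (d i * x i) * ((d j * y j) * Lb j)
          - (d i * x i) * La i * (V i j * (d j * y j)) := fun i j => by ring
    simp_rw [e0, Finset.sum_sub_distrib]
    rw [Finset.sum_comm]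
    have e1 : ∑ j, ∑ i, V i j * (d i * x i) * ((d j * y j) * Lb j)
        = ∑ j, x j * ((d j * y j) * Lb j) := by
      refine Finset.sum_congr rfl fun j _ => ?_
      rw [← Finset.sum_mul, ← ex j]
    have e2 : ∑ i, ∑ j, (d i * x i) * La i * (V i j * (d j * y j))
        = ∑ i, (d i * x i) * La i * y i := by
      refine Finset.sum_congr rfl fun i _ => ?_
      rw [← Finset.mul_sum, ← ey i]
    rw [e1, e2, ← Finset.sum_sub_distrib]
    refine Finset.sum_congr rfl fun i _ => ?_
    simp only [hLb, hLa]; ring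
  rw [← h3]; exact h2

/-- Strict monotonicity of `∑ τ d_i` in `τ`. -/
theorem strict {n : ℕ} (hn : 0 < n) (V : Matrix (Fin n) (Fin n) ℝ) (hV : ∀ i j, 0 ≤ V i j)
    (τ τ' : ℝ) (hτ : 0 < τ) (hτ' : τ < τ')
    (d x y d' x' y' : Fin n → ℝ)
    (hd : ∀ i, 0 < d i) (hx : ∀ i, 0 < x i) (hy : ∀ i, 0 < y i)
    (hd' : ∀ i, 0 < d' i) (hx' : ∀ i, 0 < x' i) (hy' : ∀ i, 0 < y' i)
    (ey : ∀ i, y i = ∑ j, V i j * (d j * y j))
    (ex : ∀ j, x j = ∑ i, V i j * (d i * x i))
    (ey' : ∀ i, y' i = ∑ j, V i j * (d' j * y' j))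
    (ex' : ∀ j, x' j = ∑ i, V i j * (d' i * x' i))
    (h : ∀ i, d i * x i * y i = 1 - τ * d i) (h' : ∀ i, d' i * x' i * y' i = 1 - τ' * d' i) :
    ∑ i, τ * d i < ∑ i, τ' * d' i := by
  have A := ineq1 V hV d x y d' y' hd hx hy hd' hy' ey ex ey'
  have B := ineq1 V hV d' x' y' d y hd' hx' hy' hd hy ey' ex' ey
  have hτ0 : 0 < τ' := hτ.trans hτ'
  set L : ℝ := Real.log τ' - Real.log τ with hL
  have hLpos : 0 < L := sub_pos.2 (Real.log_lt_log hτ hτ')
  have hterm : ∀ i, 0 ≤ (τ' * d' i - τ * d i) * (Real.log (τ' * d' i) - Real.log (τ * d i)) := by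
    intro i
    have h1 : 0 < τ * d i := mul_pos hτ (hd i)
    have h2 : 0 < τ' * d' i := mul_pos hτ0 (hd' i)
    rcases le_total (τ * d i) (τ' * d' i) with hle | hle
    · exact mul_nonneg (sub_nonneg.2 hle) (sub_nonneg.2 (Real.log_le_log h1 hle))
    · exact mul_nonneg_of_nonpos_of_nonpos (sub_nonpos.2 hle)
        (sub_nonpos.2 (Real.log_le_log h2 hle))
  have hsum : ∑ i, (τ' * d' i - τ * d i) * (Real.log (τ' * d' i) - Real.log (τ * d i))
      ≤ L * (∑ i, τ' * d' i - ∑ i, τ * d i) := by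
    have e1 : ∀ i, (τ' * d' i - τ * d i) * (Real.log (τ' * d' i) - Real.log (τ * d i))
        = d i * x i * y i * (Real.log (d' i) - Real.log (d i))
          + d' i * x' i * y' i * (Real.log (d i) - Real.log (d' i))
          + L * (τ' * d' i - τ * d i) := by
      intro i
      rw [h i, h' i, Real.log_mul hτ0.ne' (hd' i).ne', Real.log_mul hτ.ne' (hd i).ne', hL]
      ring
    have e2 : ∑ i, L * (τ' * d' i - τ * d i) = L * (∑ i, τ' * d' i - ∑ i, τ * d i) := by
      rw [← Finset.mul_sum, Finset.sum_sub_distrib]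
    rw [Finset.sum_congr rfl fun i _ => e1 i, Finset.sum_add_distrib, Finset.sum_add_distrib, e2]
    linarith
  have hge : 0 ≤ ∑ i, (τ' * d' i - τ * d i) * (Real.log (τ' * d' i) - Real.log (τ * d i)) :=
    Finset.sum_nonneg fun i _ => hterm i
  have h5 : 0 ≤ ∑ i, τ' * d' i - ∑ i, τ * d i := by
    have := hge.trans hsum
    by_contra hneg
    push Not at hneg
    have := mul_neg_of_pos_of_neg hLpos hneg
    linarith
  rcases h5.lt_or_eq with h6 | h6
  · linarith
  exfalso
  rw [← h6, mul_zero] at hsum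
  have hz := le_antisymm hsum hge
  rw [Finset.sum_eq_zero_iff_of_nonneg fun i _ => hterm i] at hz
  have heq : ∀ i, τ' * d' i = τ * d i := by
    intro i
    have h1 : 0 < τ * d i := mul_pos hτ (hd i)
    have h2 : 0 < τ' * d' i := mul_pos hτ0 (hd' i)
    rcases mul_eq_zero.1 (hz i (Finset.mem_univ i)) with h3 | h3
    · linarith
    · exact Real.log_injOn_pos (Set.mem_Ioi.2 h2) (Set.mem_Ioi.2 h1) (by linarith)
  have hpos : 0 < ∑ i, d' i * x' i * y' i * (Real.log (d i) - Real.log (d' i)) := by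
    refine Finset.sum_pos (fun i _ => ?_) ⟨⟨0, hn⟩, Finset.mem_univ _⟩
    refine mul_pos (mul_pos (mul_pos (hd' i) (hx' i)) (hy' i)) (sub_pos.2 ?_)
    refine Real.log_lt_log (hd' i) ?_
    have := heq i
    have h7 := hd' i
    have h8 := hd i
    by_contra hcon
    push Not at hcon
    have : τ * d i < τ' * d' i := by
      calc τ * d i ≤ τ * d' i := mul_le_mul_of_nonneg_left hcon hτ.le
        _ < τ' * d' i := mul_lt_mul_of_pos_right hτ' h7
    linarith
  linarith

end Pool.Agent.V1138.DE
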